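import Mathlib

/-!
# MP_8c719a_al : minimum covers of LCM-`p`-groups for odd `p`

For every odd prime `p` there are infinitely many finite sets `F` of LCM-`p`-groups (members
taken up to isomorphism) such that every minimum `F`-cover fails to be an LCM-group.
One can take `F_k = {Heis(p), (C_{p^k})^p}`, `k ≥ 2`.
-/

namespace Pool.Agent.Results.MP_8c719a_al.InfinitelyManySets

/-- `LCM(G)`: the elements `x` with `o(x^n y) ∣ lcm(o(x^n), o(y))` for all `n`, `y ∈ G`. -/
def LCMset (G : Type) [Group G] : Set G :=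
  {x | ∀ n : ℕ, ∀ y : G, orderOf (x ^ n * y) ∣ Nat.lcm (orderOf (x ^ n)) (orderOf y)}

/-- `G` is an LCM-group if `LCM(G) = G`. -/
def IsLCMGroup (G : Type) [Group G] : Prop := LCMset G = Set.univ

/-- A finite family of groups (representing a finite set of groups, up to isomorphism). -/
structure Fam where
  /-- the number of members -/
  n : ℕ
  /-- the members -/
  grp : Fin n → GrpCat.{0}

/-- Two families represent the same set of groups up to isomorphism. -/
def Fam.Same (F F' : Fam) : Prop :=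
  (∀ i, ∃ j, Nonempty (F.grp i ≃* F'.grp j)) ∧ (∀ j, ∃ i, Nonempty (F.grp i ≃* F'.grp j))

/-- `F` consists of (finite) LCM-`p`-groups. -/
def Fam.IsLCMp (F : Fam) (p : ℕ) : Prop :=
  ∀ i, Finite (F.grp i) ∧ IsPGroup p (F.grp i) ∧ IsLCMGroup (F.grp i)

/-- `G` is an `F`-cover: it contains a copy of every member of `F`. -/
def IsCover (F : Fam) (G : Type) [Group G] : Prop :=
  ∀ i, ∃ f : F.grp i →* G, Function.Injective f

/-- `G` is a minimum `F`-cover: a finite `F`-cover of least possible order. -/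
def IsMinCover (F : Fam) (G : Type) [Group G] : Prop :=
  Finite G ∧ IsCover F G ∧
    ∀ (G' : Type) [Group G'] [Finite G'], IsCover F G' → Nat.card G ≤ Nat.card G'

/-! ### The Heisenberg group -/

/-- The Heisenberg group modulo `p`. -/
@[ext] structure Heis (p : ℕ) where
  /-- first coordinate -/
  a : ZMod p
  /-- second coordinate -/
  b : ZMod p
  /-- central coordinate -/
  c : ZMod p

namespace Heis

variable {p : ℕ}

instance : Group (Heis p) where
  mul x y := ⟨x.a + y.a, x.b + y.b, x.c + y.c + x.a * y.b⟩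
  one := ⟨0, 0, 0⟩
  inv x := ⟨-x.a, -x.b, -x.c + x.a * x.b⟩
  mul_assoc x y z := by
    show (⟨_, _, _⟩ : Heis p) = ⟨_, _, _⟩
    ext
    · show x.a + y.a + z.a = x.a + (y.a + z.a); ring
    · show x.b + y.b + z.b = x.b + (y.b + z.b); ring
    · show x.c + y.c + x.a * y.b + z.c + (x.a + y.a) * z.b
        = x.c + (y.c + z.c + y.a * z.b) + x.a * (y.b + z.b)
      ring
  one_mul x := by
    show (⟨_, _, _⟩ : Heis p) = x
    ext
    · show 0 + x.a = x.a; ring
    · show 0 + x.b = x.b; ring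
    · show 0 + x.c + 0 * x.b = x.c; ring
  mul_one x := by
    show (⟨_, _, _⟩ : Heis p) = x
    ext
    · show x.a + 0 = x.a; ring
    · show x.b + 0 = x.b; ring
    · show x.c + 0 + x.a * 0 = x.c; ring
  inv_mul_cancel x := by
    show (⟨_, _, _⟩ : Heis p) = ⟨_, _, _⟩
    ext
    · show -x.a + x.a = 0; ring
    · show -x.b + x.b = 0; ring
    · show -x.c + x.a * x.b + x.c + -x.a * x.b = 0; ring

@[simp] theorem mul_a (x y : Heis p) : (x * y).a = x.a + y.a := rfl
@[simp] theorem mul_b (x y : Heis p) : (x * y).b = x.b + y.b := rfl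
@[simp] theorem mul_c (x y : Heis p) : (x * y).c = x.c + y.c + x.a * y.b := rfl
@[simp] theorem one_a : (1 : Heis p).a = 0 := rfl
@[simp] theorem one_b : (1 : Heis p).b = 0 := rfl
@[simp] theorem one_c : (1 : Heis p).c = 0 := rfl

/-- The underlying triple. -/
def equivProd : Heis p ≃ ZMod p × ZMod p × ZMod p where
  toFun x := (x.a, x.b, x.c)
  invFun t := ⟨t.1, t.2.1, t.2.2⟩
  left_inv _ := rfl
  right_inv _ := rfl

theorem pow_formula (x : Heis p) (n : ℕ) :
    x ^ n = ⟨n * x.a, n * x.b, n * x.c + (n.choose 2 : ℕ) * (x.a * x.b)⟩ := by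
  induction n with
  | zero => ext <;> simp
  | succ n ih =>
    rw [pow_succ, ih]
    ext
    · simp; ring
    · simp; ring
    · simp only [mul_c]
      have : (n + 1).choose 2 = n + n.choose 2 := by
        rw [Nat.choose_succ_succ' n 1, Nat.choose_one_right]
      rw [this]; push_cast; ring

theorem pow_p (hp : p.Prime) (hodd : p ≠ 2) (x : Heis p) : x ^ p = 1 := by
  rw [pow_formula]
  have h2 : ((p.choose 2 : ℕ) : ZMod p) = 0 := by
    rw [ZMod.natCast_eq_zero_iff]
    exact hp.dvd_choose_self (by norm_num) (lt_of_le_of_ne hp.two_le (Ne.symm hodd))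
  ext <;> simp [h2]

end Heis

theorem card_Heis (p : ℕ) [NeZero p] : Nat.card (Heis p) = p ^ 3 := by
  rw [Nat.card_congr Heis.equivProd, Nat.card_prod, Nat.card_prod, Nat.card_zmod]; ring

instance (p : ℕ) [NeZero p] : Finite (Heis p) := Finite.of_equiv _ Heis.equivProd.symm

theorem isLCM_of_exponent {G : Type} [Group G] {p : ℕ} (hp : p.Prime)
    (h : ∀ x : G, x ^ p = 1) : IsLCMGroup G := by
  unfold IsLCMGroup
  rw [Set.eq_univ_iff_forall]
  intro x n y
  by_cases h1 : x ^ n = 1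
  · rw [h1]; simp
  · have : Fact p.Prime := ⟨hp⟩
    have h2 : orderOf (x ^ n) = p := orderOf_eq_prime (h _) h1
    have h3 : orderOf (x ^ n * y) ∣ p := orderOf_dvd_of_pow_eq_one (h _)
    rw [h2]
    exact h3.trans (Nat.dvd_lcm_left _ _)

theorem isLCM_of_comm {G : Type} [CommGroup G] : IsLCMGroup G := by
  unfold IsLCMGroup
  rw [Set.eq_univ_iff_forall]
  intro x n y
  exact (Commute.all _ _).orderOf_mul_dvd_lcm

/-! ### The wreath product `C_m ≀ C_p` -/

/-- The wreath product `C_m ≀ C_p`. -/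
@[ext] structure Wr (p m : ℕ) where
  /-- base coordinate -/
  f : ZMod p → ZMod m
  /-- top coordinate -/
  s : ZMod p

namespace Wr

variable {p m : ℕ}

instance : Group (Wr p m) where
  mul x y := ⟨fun t => x.f t + y.f (t + x.s), x.s + y.s⟩
  one := ⟨fun _ => 0, 0⟩
  inv x := ⟨fun t => -x.f (t - x.s), -x.s⟩
  mul_assoc x y z := by
    show (⟨_, _⟩ : Wr p m) = ⟨_, _⟩
    ext t
    · show x.f t + y.f (t + x.s) + z.f (t + (x.s + y.s))
        = x.f t + (y.f (t + x.s) + z.f (t + x.s + y.s))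
      rw [add_assoc, add_assoc]
    · show x.s + y.s + z.s = x.s + (y.s + z.s); ring
  one_mul x := by
    show (⟨_, _⟩ : Wr p m) = x
    ext t
    · show 0 + x.f (t + 0) = x.f t; simp
    · show 0 + x.s = x.s; simp
  mul_one x := by
    show (⟨_, _⟩ : Wr p m) = x
    ext t
    · show x.f t + 0 = x.f t; simp
    · show x.s + 0 = x.s; simp
  inv_mul_cancel x := by
    show (⟨_, _⟩ : Wr p m) = ⟨_, _⟩
    ext t
    · show -x.f (t - x.s) + x.f (t + -x.s) = 0; rw [← sub_eq_add_neg]; ring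
    · show -x.s + x.s = 0; ring

@[simp] theorem mul_f (x y : Wr p m) (t : ZMod p) : (x * y).f t = x.f t + y.f (t + x.s) := rfl
@[simp] theorem mul_s (x y : Wr p m) : (x * y).s = x.s + y.s := rfl

/-- The underlying pair. -/
def equivProd : Wr p m ≃ (ZMod p → ZMod m) × ZMod p where
  toFun x := (x.f, x.s)
  invFun t := ⟨t.1, t.2⟩
  left_inv _ := rfl
  right_inv _ := rfl

end Wr

instance (p m : ℕ) [NeZero p] [NeZero m] : Finite (Wr p m) :=
  Finite.of_equiv _ Wr.equivProd.symm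

theorem card_Wr (p m : ℕ) [NeZero p] [NeZero m] : Nat.card (Wr p m) = m ^ p * p := by
  rw [Nat.card_congr Wr.equivProd, Nat.card_prod, Nat.card_zmod, Nat.card_fun, Nat.card_zmod,
    Nat.card_zmod]

/-- `(C_m)^p` -/
abbrev AB (p m : ℕ) : Type := Multiplicative (ZMod p → ZMod m)

theorem card_AB (p m : ℕ) [NeZero p] [NeZero m] : Nat.card (AB p m) = m ^ p := by
  show Nat.card (ZMod p → ZMod m) = m ^ p
  rw [Nat.card_fun, Nat.card_zmod, Nat.card_zmod]

/-- The family `{Heis(p), (C_{p^k})^p}`. -/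
def fam (p k : ℕ) : Fam where
  n := 2
  grp := ![GrpCat.of (Heis p), GrpCat.of (AB p (p ^ k))]

/-- The embedding of `Heis(p)` into `C_m ≀ C_p`. -/
def heisToWr (p m : ℕ) (ι : ZMod p →+ ZMod m) : Heis p →* Wr p m where
  toFun x := ⟨fun t => ι (x.b * t + x.c), x.a⟩
  map_one' := by
    ext t
    · show ι (0 * t + 0) = 0; simp
    · rfl
  map_mul' x y := by
    ext t
    · show ι ((x.b + y.b) * t + (x.c + y.c + x.a * y.b)) = ι (x.b * t + x.c) + ι (y.b * (t + x.a) + y.c)
      rw [← map_add]; congr 1; ring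
    · rfl

theorem heisToWr_inj (p m : ℕ) (ι : ZMod p →+ ZMod m) (hι : Function.Injective ι) :
    Function.Injective (heisToWr p m ι) := by
  intro x y h
  have hs : x.a = y.a := congrArg Wr.s h
  have hf : ∀ t, ι (x.b * t + x.c) = ι (y.b * t + y.c) := fun t => congrFun (congrArg Wr.f h) t
  have h0 := hι (hf 0)
  have h1 := hι (hf 1)
  simp only [mul_zero, zero_add, mul_one] at h0 h1
  ext
  · exact hs
  · rw [h0] at h1; exact add_right_cancel h1
  · exact h0

/-- The embedding of `(C_m)^p` into `C_m ≀ C_p`. -/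
def abToWr (p m : ℕ) : AB p m →* Wr p m where
  toFun x := ⟨fun t => x.toAdd t, 0⟩
  map_one' := by
    ext t
    · rfl
    · rfl
  map_mul' x y := by
    ext t
    · show (x * y).toAdd t = x.toAdd t + y.toAdd (t + 0)
      rw [add_zero]; rfl
    · show (0 : ZMod p) = 0 + 0
      simp

theorem abToWr_inj (p m : ℕ) : Function.Injective (abToWr p m) := by
  intro x y h
  have hf := congrArg Wr.f h
  exact hf

theorem exists_iota (p k : ℕ) (hp : p.Prime) (hk : 1 ≤ k) :
    ∃ ι : ZMod p →+ ZMod (p ^ k), Function.Injective ι := by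
  have h0 : (p : ℤ) • ((p ^ (k - 1) : ℕ) : ZMod (p ^ k)) = 0 := by
    have : ((p * p ^ (k - 1) : ℕ) : ZMod (p ^ k)) = 0 := by
      rw [← pow_succ', Nat.sub_add_cancel hk]
      exact ZMod.natCast_self _
    rw [zsmul_eq_mul]; push_cast at this ⊢; exact this
  refine ⟨ZMod.lift p ⟨zmultiplesHom _ ((p ^ (k - 1) : ℕ) : ZMod (p ^ k)), ?_⟩, ?_⟩
  · simpa using h0
  · rw [ZMod.lift_injective]
    intro m hm
    have h1 : (m : ℤ) • ((p ^ (k - 1) : ℕ) : ZMod (p ^ k)) = 0 := by simpa using hm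
    have h2 : ((m * (p ^ (k - 1) : ℕ) : ℤ) : ZMod (p ^ k)) = 0 := by
      rw [zsmul_eq_mul] at h1; push_cast at h1 ⊢; exact h1
    rw [ZMod.intCast_zmod_eq_zero_iff_dvd] at h2
    rw [ZMod.intCast_zmod_eq_zero_iff_dvd]
    have h3 : (p ^ k : ℕ) = p * p ^ (k - 1) := by rw [← pow_succ', Nat.sub_add_cancel hk]
    rw [h3] at h2
    push_cast at h2
    have hpos : (p : ℤ) ^ (k - 1) ≠ 0 := pow_ne_zero _ (by exact_mod_cast hp.ne_zero)
    exact Int.dvd_of_mul_dvd_mul_right hpos h2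

theorem cover_iff (p k : ℕ) (G : Type) [Group G] :
    IsCover (fam p k) G ↔ (∃ f : Heis p →* G, Function.Injective f) ∧
      (∃ f : AB p (p ^ k) →* G, Function.Injective f) := by
  constructor
  · intro h
    exact ⟨h (0 : Fin 2), h (1 : Fin 2)⟩
  · rintro ⟨h0, h1⟩ i
    change Fin 2 at i
    match i with
    | 0 => exact h0
    | 1 => exact h1

theorem cover_Wr (p k : ℕ) (hp : p.Prime) (hk : 1 ≤ k) : IsCover (fam p k) (Wr p (p ^ k)) := by
  obtain ⟨ι, hι⟩ := exists_iota p k hp hk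
  rw [cover_iff]
  exact ⟨⟨heisToWr p _ ι, heisToWr_inj p _ ι hι⟩, ⟨abToWr p _, abToWr_inj p _⟩⟩

theorem heis_not_comm (p : ℕ) (hp : p.Prime) : ∃ x y : Heis p, x * y ≠ y * x := by
  have : Fact p.Prime := ⟨hp⟩
  refine ⟨⟨1, 0, 0⟩, ⟨0, 1, 0⟩, fun h => ?_⟩
  have := congrArg Heis.c h
  simp at this

theorem isPGroup_Heis (p : ℕ) (hp : p.Prime) (hodd : p ≠ 2) : IsPGroup p (Heis p) := fun x =>
  ⟨1, by rw [pow_one]; exact Heis.pow_p hp hodd x⟩

theorem AB_pow (p m : ℕ) (x : AB p m) (n : ℕ) (h : (n : ZMod m) = 0) : x ^ n = 1 := by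
  apply Multiplicative.toAdd.injective
  rw [toAdd_pow]
  ext t
  show (n • x.toAdd) t = 0
  rw [Pi.smul_apply, nsmul_eq_mul, h, zero_mul]

theorem isPGroup_AB (p k : ℕ) : IsPGroup p (AB p (p ^ k)) := fun x =>
  ⟨k, AB_pow _ _ x _ (ZMod.natCast_self _)⟩

/-- In `(C_{p^k})^p` with `k ≥ 2` every element of order dividing `p` is a `p`-th power. -/
theorem AB_root (p k : ℕ) (hp : p.Prime) (hk : 2 ≤ k) (x : AB p (p ^ k)) (hx : x ^ p = 1) :
    ∃ y : AB p (p ^ k), y ^ p = x := by
  have : NeZero p := ⟨hp.ne_zero⟩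
  have h1 : ∀ t, ∃ v : ZMod (p ^ k), (p : ZMod (p ^ k)) * v = x.toAdd t := by
    intro t
    have h2 : (p : ZMod (p ^ k)) * x.toAdd t = 0 := by
      have := congrFun (congrArg Multiplicative.toAdd hx) t
      rw [toAdd_pow, Pi.smul_apply, nsmul_eq_mul] at this
      exact this
    set u := x.toAdd t with hu
    have h3 : ((p * u.val : ℕ) : ZMod (p ^ k)) = 0 := by
      rw [Nat.cast_mul, ZMod.natCast_zmod_val]; exact h2
    rw [ZMod.natCast_eq_zero_iff] at h3
    have h4 : (p ^ k : ℕ) = p * (p * p ^ (k - 2)) := by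
      rw [← pow_succ', ← pow_succ']; congr 1; omega
    have h6 : p * (p * p ^ (k - 2)) ∣ p * u.val := by rw [← h4]; exact h3
    have h5 : p * p ^ (k - 2) ∣ u.val := Nat.dvd_of_mul_dvd_mul_left hp.pos h6
    obtain ⟨c, hc⟩ := h5
    refine ⟨((p ^ (k - 2) * c : ℕ) : ZMod (p ^ k)), ?_⟩
    rw [← Nat.cast_mul, ← mul_assoc, ← hc, ZMod.natCast_zmod_val]
  choose v hv using h1
  refine ⟨Multiplicative.ofAdd v, ?_⟩
  apply Multiplicative.toAdd.injective
  rw [toAdd_pow]
  ext t
  show (p • v) t = _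
  rw [Pi.smul_apply, nsmul_eq_mul, hv]

/-- The key lemma: a `p`-group of order `p |A|` containing `A = (C_{p^k})^p` (`k ≥ 2`) and
`Heis(p)` is not an LCM-group. -/
theorem key (p k : ℕ) (hp : p.Prime) (hodd : p ≠ 2) (hk : 2 ≤ k) (G : Type) [Group G] [Finite G]
    (f : Heis p →* G) (hf : Function.Injective f) (φ : AB p (p ^ k) →* G)
    (hφ : Function.Injective φ) (hidx : φ.range.index = p) (hnorm : φ.range.Normal) :
    ¬ IsLCMGroup G := by
  intro hL
  have hfp : ∀ x, f x ^ p = 1 := fun x => by rw [← map_pow, Heis.pow_p hp hodd, map_one]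
  have hAcomm : ∀ x ∈ φ.range, ∀ y ∈ φ.range, x * y = y * x := by
    rintro _ ⟨x, rfl⟩ _ ⟨y, rfl⟩
    rw [← map_mul, mul_comm, map_mul]
  -- an element of the Heisenberg group outside `A`
  obtain ⟨x0, y0, hxy⟩ := heis_not_comm p hp
  have hex : ∃ h0 : Heis p, f h0 ∉ φ.range := by
    by_contra hcon
    push Not at hcon
    apply hxy
    apply hf
    rw [map_mul, map_mul]
    exact hAcomm _ (hcon _) _ (hcon _)
  obtain ⟨h0, hh0⟩ := hex
  -- every element of `G` is in `A * h0^i`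
  have hquot : ∀ g : G, ∃ i : ℕ, g * (f h0 ^ i)⁻¹ ∈ φ.range := by
    intro g
    have hcard : Nat.card (G ⧸ φ.range) = p := hidx
    have : Fact p.Prime := ⟨hp⟩
    have hne : (QuotientGroup.mk' φ.range (f h0)) ≠ 1 := by
      intro h
      exact hh0 ((QuotientGroup.eq_one_iff _).mp h)
    have hz := mem_powers_of_prime_card (g := QuotientGroup.mk' φ.range (f h0))
      (g' := QuotientGroup.mk' φ.range g) hcard hne
    obtain ⟨i, hi⟩ := hz
    refine ⟨i, ?_⟩
    rw [← QuotientGroup.eq_one_iff]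
    have hi' : QuotientGroup.mk' φ.range (f h0) ^ i = QuotientGroup.mk' φ.range g := hi
    show QuotientGroup.mk' φ.range (g * (f h0 ^ i)⁻¹) = 1
    rw [map_mul, map_inv, map_pow, hi', mul_inv_cancel]
  -- some element of `f(Heis) ∩ A` does not commute with `h0`
  have hex2 : ∃ a : Heis p, f a ∈ φ.range ∧ f a * f h0 ≠ f h0 * f a := by
    by_contra hcon
    push Not at hcon
    apply hxy
    obtain ⟨i, hi⟩ := hquot (f x0)
    obtain ⟨j, hj⟩ := hquot (f y0)
    rw [← map_pow, ← map_inv, ← map_mul] at hi hj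
    have c1 : Commute (f (x0 * (h0 ^ i)⁻¹)) (f h0) := hcon _ hi
    have c2 : Commute (f (y0 * (h0 ^ j)⁻¹)) (f h0) := hcon _ hj
    have c3 : Commute (f (x0 * (h0 ^ i)⁻¹)) (f (y0 * (h0 ^ j)⁻¹)) := hAcomm _ hi _ hj
    have e1 : f x0 = f (x0 * (h0 ^ i)⁻¹) * f h0 ^ i := by
      rw [← map_pow, ← map_mul]; simp
    have e2 : f y0 = f (y0 * (h0 ^ j)⁻¹) * f h0 ^ j := by
      rw [← map_pow, ← map_mul]; simp
    apply hf
    rw [map_mul, map_mul, e1, e2]
    have c4 : Commute (f (x0 * (h0 ^ i)⁻¹) * f h0 ^ i) (f (y0 * (h0 ^ j)⁻¹) * f h0 ^ j) := by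
      apply Commute.mul_left
      · apply Commute.mul_right c3
        exact c1.pow_right j
      · apply Commute.mul_right
        · exact (c2.pow_right i).symm
        · exact (Commute.refl (f h0)).pow_pow i j
    exact c4
  obtain ⟨a, haA, hacomm⟩ := hex2
  obtain ⟨a', ha'⟩ := haA
  have ha'p : a' ^ p = 1 := by
    apply hφ
    rw [map_pow, ha', hfp, map_one]
  obtain ⟨w', hw'⟩ := AB_root p k hp hk a' ha'p
  set w := φ w' with hw
  set h := f h0 with hh
  have hwp : w ^ p = f a := by rw [hw, ← map_pow, hw', ha']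
  -- `x = w h w⁻¹`, `y = h⁻¹`
  have hx : (w * h * w⁻¹) ^ p = 1 := by
    rw [conj_pow, hfp]; simp
  have hy : (h⁻¹) ^ p = 1 := by rw [inv_pow, hfp]; simp
  have hmem : w * h * w⁻¹ ∈ LCMset G := by
    rw [show LCMset G = Set.univ from hL]; trivial
  have h1 := hmem 1 h⁻¹
  rw [pow_one] at h1
  have h2 : orderOf (w * h * w⁻¹ * h⁻¹) ∣ p :=
    h1.trans (Nat.lcm_dvd (orderOf_dvd_of_pow_eq_one hx) (orderOf_dvd_of_pow_eq_one hy))
  have h3 : (w * h * w⁻¹ * h⁻¹) ^ p = 1 := orderOf_dvd_iff_pow_eq_one.mp h2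
  have hwA : w ∈ φ.range := ⟨w', rfl⟩
  have hcw : h * w⁻¹ * h⁻¹ ∈ φ.range := hnorm.conj_mem _ (φ.range.inv_mem hwA) h
  have h4 : Commute w (h * w⁻¹ * h⁻¹) := hAcomm _ hwA _ hcw
  have h5 : w * h * w⁻¹ * h⁻¹ = w * (h * w⁻¹ * h⁻¹) := by group
  rw [h5, h4.mul_pow, conj_pow, inv_pow, hwp] at h3
  apply hacomm
  have h6 : f a * (h * (f a)⁻¹ * h⁻¹) = 1 := h3
  have h7 : f a * h = (f a * (h * (f a)⁻¹ * h⁻¹)) * (h * f a) := by group
  rw [h7, h6, one_mul]

theorem comm_of_range_top {A G : Type} [CommGroup A] [Group G] (φ : A →* G) (h : φ.range = ⊤)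
    (x y : G) : x * y = y * x := by
  have hx : x ∈ φ.range := by rw [h]; trivial
  have hy : y ∈ φ.range := by rw [h]; trivial
  obtain ⟨a, rfl⟩ := hx
  obtain ⟨b, rfl⟩ := hy
  rw [← map_mul, mul_comm, map_mul]

/-- A minimum cover of `fam p k` is a `p`-group. -/
theorem min_isPGroup (p k : ℕ) (hp : p.Prime) (hodd : p ≠ 2) (G : Type) [Group G]
    (hG : IsMinCover (fam p k) G) : IsPGroup p G := by
  obtain ⟨hfin, hcov, hmin⟩ := hG
  have : Fact p.Prime := ⟨hp⟩
  obtain ⟨⟨f, hf⟩, ⟨φ, hφ⟩⟩ := (cover_iff p k G).mp hcov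
  have hfr : IsPGroup p f.range :=
    (isPGroup_Heis p hp hodd).of_surjective f.rangeRestrict f.rangeRestrict_surjective
  have hφr : IsPGroup p φ.range :=
    (isPGroup_AB p k).of_surjective φ.rangeRestrict φ.rangeRestrict_surjective
  obtain ⟨P, hP⟩ := hφr.exists_le_sylow
  obtain ⟨Q, hQ⟩ := hfr.exists_le_sylow
  obtain ⟨g, hg⟩ := MulAction.exists_smul_eq G Q P
  -- `P` is a cover
  have hcovP : IsCover (fam p k) P := by
    rw [cover_iff]
    constructor
    · have hmem : ∀ x, g * f x * g⁻¹ ∈ (P : Subgroup G) := by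
        intro x
        rw [← hg]
        have : f x ∈ (Q : Subgroup G) := hQ ⟨x, rfl⟩
        rw [Sylow.coe_subgroup_smul]
        have h2 := Subgroup.smul_mem_pointwise_smul (f x) (MulAut.conj g) (Q : Subgroup G) this
        simpa using h2
      refine ⟨((MulAut.conj g).toMonoidHom.comp f).codRestrict (P : Subgroup G) hmem, ?_⟩
      intro x y hxy
      have h1 := congrArg Subtype.val hxy
      have h2 : g * f x * g⁻¹ = g * f y * g⁻¹ := h1
      exact hf (by simpa using h2)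
    · have hmem : ∀ x, φ x ∈ (P : Subgroup G) := fun x => hP ⟨x, rfl⟩
      refine ⟨φ.codRestrict (P : Subgroup G) hmem, ?_⟩
      intro x y hxy
      exact hφ (congrArg Subtype.val hxy)
  have hle := hmin P hcovP
  have htop : (P : Subgroup G) = ⊤ := by
    apply Subgroup.eq_top_of_le_card
    exact hle
  have h3 : IsPGroup p (⊤ : Subgroup G) := by rw [← htop]; exact P.isPGroup'
  exact h3.of_equiv Subgroup.topEquiv

/-- Every minimum cover of `{Heis(p), (C_{p^k})^p}` (`k ≥ 2`, `p` odd) is not an LCM-group. -/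
theorem min_not_LCM (p k : ℕ) (hp : p.Prime) (hodd : p ≠ 2) (hk : 2 ≤ k) (G : Type) [Group G]
    (hG : IsMinCover (fam p k) G) : ¬ IsLCMGroup G := by
  have hpG := min_isPGroup p k hp hodd G hG
  obtain ⟨hfin, hcov, hmin⟩ := hG
  have : Fact p.Prime := ⟨hp⟩
  have : NeZero (p ^ k) := ⟨pow_ne_zero _ hp.ne_zero⟩
  obtain ⟨⟨f, hf⟩, ⟨φ, hφ⟩⟩ := (cover_iff p k G).mp hcov
  have hle : Nat.card G ≤ (p ^ k) ^ p * p := by
    rw [← card_Wr p (p ^ k)]
    exact hmin _ (cover_Wr p k hp (by omega))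
  have hcardA : Nat.card φ.range = (p ^ k) ^ p := by
    rw [← card_AB p (p ^ k)]
    exact (Nat.card_congr (MonoidHom.ofInjective hφ).toEquiv).symm
  have hmul := φ.range.card_mul_index
  rw [hcardA] at hmul
  have hpos : 0 < (p ^ k) ^ p := pow_pos (pow_pos hp.pos _) _
  have hidxle : φ.range.index ≤ p := by
    rw [← hmul] at hle
    exact Nat.le_of_mul_le_mul_left hle hpos
  have hidxne1 : φ.range.index ≠ 1 := by
    intro h
    rw [Subgroup.index_eq_one] at h
    obtain ⟨x0, y0, hxy⟩ := heis_not_comm p hp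
    apply hxy
    apply hf
    rw [map_mul, map_mul]
    exact comm_of_range_top φ h _ _
  have hidx : φ.range.index = p := by
    obtain ⟨n, hn⟩ := hpG.index φ.range
    rcases Nat.eq_zero_or_pos n with h0 | h0
    · rw [h0, pow_zero] at hn; exact absurd hn hidxne1
    · have : p ≤ p ^ n := Nat.le_self_pow (by omega) p
      omega
  have hnorm : φ.range.Normal := by
    apply Subgroup.normal_of_index_eq_minFac_card
    rw [hidx]
    obtain ⟨n, hn⟩ := IsPGroup.iff_card.mp hpG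
    rw [hn]
    have hn0 : n ≠ 0 := by
      intro h
      rw [h, pow_zero] at hn
      have h1 : φ.range.index ∣ Nat.card G := Subgroup.index_dvd_card _
      rw [hn, hidx] at h1
      exact hp.one_lt.ne' (Nat.dvd_one.mp h1)
    exact (hp.pow_minFac hn0).symm
  exact key p k hp hodd hk G f hf φ hφ hidx hnorm

theorem exists_min (F : Fam) (W : Type) [Group W] [Finite W] (hW : IsCover F W) :
    ∃ (G : Type) (_ : Group G), IsMinCover F G := by
  classical
  have hex : ∃ n : ℕ, ∃ (G : Type) (_ : Group G), Finite G ∧ IsCover F G ∧ Nat.card G = n :=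
    ⟨Nat.card W, W, inferInstance, inferInstance, hW, rfl⟩
  obtain ⟨G, hg, hfin, hc, hn⟩ := Nat.find_spec hex
  refine ⟨G, hg, hfin, hc, ?_⟩
  intro G' _ _ hc'
  rw [hn]
  exact Nat.find_min' hex ⟨G', inferInstance, inferInstance, hc', rfl⟩

theorem not_same (p k l : ℕ) (hp : p.Prime) (hk : 2 ≤ k) (hkl : k ≠ l) :
    ¬ (fam p k).Same (fam p l) := by
  have : NeZero p := ⟨hp.ne_zero⟩
  have : NeZero (p ^ k) := ⟨pow_ne_zero _ hp.ne_zero⟩
  have : NeZero (p ^ l) := ⟨pow_ne_zero _ hp.ne_zero⟩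
  rintro ⟨h1, -⟩
  obtain ⟨j, ⟨e⟩⟩ := h1 (1 : Fin 2)
  change Fin 2 at j
  have hc := Nat.card_congr e.toEquiv
  have hA : Nat.card ((fam p k).grp (1 : Fin 2)) = (p ^ k) ^ p := card_AB p (p ^ k)
  rw [hA] at hc
  match j with
  | 0 =>
    have hH : Nat.card ((fam p l).grp (0 : Fin 2)) = p ^ 3 := card_Heis p
    have h2 : (p ^ k) ^ p = p ^ 3 := hc.trans hH
    rw [← pow_mul] at h2
    have h3 := Nat.pow_right_injective hp.two_le h2
    have := hp.two_le
    nlinarith
  | 1 =>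
    have hH : Nat.card ((fam p l).grp (1 : Fin 2)) = (p ^ l) ^ p := card_AB p (p ^ l)
    have h2 : (p ^ k) ^ p = (p ^ l) ^ p := hc.trans hH
    rw [← pow_mul, ← pow_mul] at h2
    have h3 := Nat.pow_right_injective hp.two_le h2
    exact hkl (Nat.eq_of_mul_eq_mul_right hp.pos h3)

/-- **Theorem.** Let `p` be an odd prime.  There are infinitely many finite sets `F` of
LCM-`p`-groups, pairwise different up to isomorphism of the members, such that every minimum
`F`-cover fails to be an LCM-group (and minimum covers exist). -/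
theorem result (p : ℕ) (hp : p.Prime) (hodd : p ≠ 2) :
    ∃ F : ℕ → Fam, (∀ k, (F k).IsLCMp p) ∧ (∀ k l, k ≠ l → ¬ (F k).Same (F l)) ∧
      (∀ k, ∃ (G : Type) (_ : Group G), IsMinCover (F k) G) ∧
      ∀ k, ∀ (G : Type) [Group G], IsMinCover (F k) G → ¬ IsLCMGroup G := by
  have : NeZero p := ⟨hp.ne_zero⟩
  refine ⟨fun k => fam p (k + 2), ?_, ?_, ?_, ?_⟩
  · intro k i
    change Fin 2 at i
    have : NeZero (p ^ (k + 2)) := ⟨pow_ne_zero _ hp.ne_zero⟩
    match i with
    | 0 => exact ⟨inferInstanceAs (Finite (Heis p)), isPGroup_Heis p hp hodd,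
        isLCM_of_exponent hp (Heis.pow_p hp hodd)⟩
    | 1 =>
      exact ⟨inferInstanceAs (Finite (ZMod p → ZMod (p ^ (k + 2)))), isPGroup_AB p (k + 2),
        isLCM_of_comm (G := AB p (p ^ (k + 2)))⟩
  · intro k l hkl
    exact not_same p _ _ hp (by omega) (by omega)
  · intro k
    have : NeZero (p ^ (k + 2)) := ⟨pow_ne_zero _ hp.ne_zero⟩
    exact exists_min _ (Wr p (p ^ (k + 2))) (cover_Wr p (k + 2) hp (by omega))
  · intro k G _ hG
    exact min_not_LCM p (k + 2) hp hodd (by omega) G hG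

end Pool.Agent.Results.MP_8c719a_al.InfinitelyManySets
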